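import Mathlib
import Pool.Agent.Lib.MP_b944bf_lc.Como

/-!
# Every deterministic ordinal matching mechanism has max-distortion at least `√n / 2`
-/

namespace Pool.Agent.Results.MP_b944bf_lc.SqrtLowerBound

open Sum Pool.Agent.Lib.MP_b944bf_lc

/-- A ranking of the `n` items `Fin n`: a strict total order `r`, where `r b b'` means that `b` is
preferred to `b'`. -/
def Ranking (n : ℕ) : Type := {r : Fin n → Fin n → Prop // IsStrictTotalOrder (Fin n) r}

/-- A profile on `n` agents: a ranking of the `n` items for each agent. -/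
def Profile (n : ℕ) : Type := Fin n → Ranking n

/-- A deterministic matching mechanism: for each `n` it maps every profile to a perfect matching
(a bijection from the `n` agents to the `n` items). -/
def Mechanism : Type := ∀ n : ℕ, Profile n → Equiv.Perm (Fin n)

/-- A pseudometric `d` on the disjoint union of the agents (`inl a`) and the items (`inr b`) is
consistent with the profile `σ` if `b ≻_a b'` implies `d(a, b) ≤ d(a, b')`. -/
def Consistent {n : ℕ} (σ : Profile n) (d : PseudoMetricSpace (Fin n ⊕ Fin n)) : Prop :=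
  ∀ a b b' : Fin n, (σ a).1 b b' → d.dist (inl a) (inr b) ≤ d.dist (inl a) (inr b')

/-- The max-cost `max_a d(a, M(a))` of the perfect matching `M` under `d`. -/
noncomputable def maxCost {n : ℕ} (M : Equiv.Perm (Fin n))
    (d : PseudoMetricSpace (Fin n ⊕ Fin n)) : ℝ :=
  ⨆ a : Fin n, d.dist (inl a) (inr (M a))

/-- `OPT(d)`: the minimum of the max-cost over all perfect matchings. -/
noncomputable def opt {n : ℕ} (d : PseudoMetricSpace (Fin n ⊕ Fin n)) : ℝ :=
  ⨅ M : Equiv.Perm (Fin n), maxCost M d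

/-- The max-distortion of `f` on `n` agents is at most `α`. -/
def DistortionAtMost (f : Mechanism) (n : ℕ) (α : ℝ) : Prop :=
  ∀ (σ : Profile n) (d : PseudoMetricSpace (Fin n ⊕ Fin n)), Consistent σ d →
    maxCost (f n σ) d ≤ α * opt d

/-! ### General facts -/

theorem le_maxCost {n : ℕ} (M : Equiv.Perm (Fin n)) (d : PseudoMetricSpace (Fin n ⊕ Fin n))
    (a : Fin n) : d.dist (inl a) (inr (M a)) ≤ maxCost M d :=
  le_ciSup (f := fun a : Fin n => d.dist (inl a) (inr (M a)))
    (Set.finite_range _).bddAbove a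

theorem maxCost_le {n : ℕ} (hn : 0 < n) (M : Equiv.Perm (Fin n))
    (d : PseudoMetricSpace (Fin n ⊕ Fin n)) (c : ℝ)
    (h : ∀ a, d.dist (inl a) (inr (M a)) ≤ c) : maxCost M d ≤ c := by
  have : Nonempty (Fin n) := ⟨⟨0, hn⟩⟩
  exact ciSup_le h

theorem opt_le {n : ℕ} (M : Equiv.Perm (Fin n))
    (d : PseudoMetricSpace (Fin n ⊕ Fin n)) : opt d ≤ maxCost M d :=
  ciInf_le (Set.finite_range _).bddBelow M

theorem le_opt {n : ℕ} (d : PseudoMetricSpace (Fin n ⊕ Fin n)) (c : ℝ)
    (h : ∀ M, c ≤ maxCost M d) : c ≤ opt d :=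
  le_ciInf h

theorem opt_nonneg {n : ℕ} (hn : 0 < n) (d : PseudoMetricSpace (Fin n ⊕ Fin n)) :
    0 ≤ opt d := by
  apply le_opt
  intro M
  refine le_trans ?_ (le_maxCost M d ⟨0, hn⟩)
  exact @dist_nonneg _ d _ _

/-- The truncated line pseudometric `min(K, |P x - P y|)`. -/
noncomputable def truncMetric {X : Type} (K : ℝ) (hK : 0 ≤ K) (P : X → ℝ) :
    PseudoMetricSpace X where
  dist x y := min K |P x - P y|
  dist_self x := by simp [hK]
  dist_comm x y := by rw [abs_sub_comm]
  dist_triangle x y z := by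
    have h := abs_sub_le (P x) (P y) (P z)
    have h1 := abs_nonneg (P x - P y)
    have h2 := abs_nonneg (P y - P z)
    rcases le_total K |P x - P y| with h3 | h3 <;> rcases le_total K |P y - P z| with h4 | h4 <;>
      simp only [min_eq_left, min_eq_right, h3, h4]
    · exact (min_le_left _ _).trans (by linarith)
    · exact (min_le_left _ _).trans (by linarith)
    · exact (min_le_left _ _).trans (by linarith)
    · exact (min_le_right _ _).trans h

/-- Two comonotone families of numbers have a common consistent profile. -/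
theorem exists_profile {n : ℕ} (u v : Fin n → Fin n → ℝ)
    (h : ∀ a b b', u a b < u a b' → v a b ≤ v a b') :
    ∃ σ : Profile n, ∀ a b b', (σ a).1 b b' → u a b ≤ u a b' ∧ v a b ≤ v a b' := by
  classical
  let key : Fin n → Fin n → ℝ ×ₗ Fin n := fun a b => toLex (u a b + v a b, b)
  have hinj : ∀ a, Function.Injective (key a) := by
    intro a b b' hb
    have := congrArg (fun p => (ofLex p).2) hb
    simpa [key] using this
  refine ⟨fun a => ⟨fun b b' => key a b < key a b', ?_⟩, ?_⟩
  · exact
      { trichotomous := by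
          intro b b' h1 h2
          exact hinj a (le_antisymm (not_lt.1 h2) (not_lt.1 h1))
        irrefl := fun b => lt_irrefl _
        trans := fun b b' b'' h1 h2 => lt_trans h1 h2 }
  · intro a b b' hb
    have hb' : key a b < key a b' := hb
    rw [Prod.Lex.lt_iff] at hb'
    have hs : u a b + v a b ≤ u a b' + v a b' := by
      rcases hb' with h1 | h1
      · exact le_of_lt h1
      · exact le_of_eq h1.1
    constructor
    · by_contra hc
      have := h a b' b (not_le.1 hc)
      linarith [not_le.1 hc]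
    · by_contra hc
      have h2 : ¬ u a b < u a b' := fun h3 => hc (h a b b' h3)
      linarith [not_lt.1 h2, not_le.1 hc]

/-! ### The instance -/

/-- Location of agent `i`: two agents share the middle location. -/
def loc (n i : ℕ) : ℕ := if i < n / 2 then i + 1 else i

theorem loc_le {n i : ℕ} (hi : i < n) : loc n i ≤ n := by
  unfold loc
  split_ifs <;> omega

/-- The left pseudometric. -/
noncomputable def dL (n : ℕ) (K : ℝ) (hK : 0 ≤ K) : PseudoMetricSpace (Fin n ⊕ Fin n) :=
  truncMetric K hK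
    (Sum.elim (fun i => F K ((n : ℝ) - loc n i)) (fun j => posL K n j))

/-- The right pseudometric. -/
noncomputable def dR (n : ℕ) (K : ℝ) (hK : 0 ≤ K) : PseudoMetricSpace (Fin n ⊕ Fin n) :=
  truncMetric K hK
    (Sum.elim (fun i => F K (loc n i)) (fun j => posR K n j))

theorem dL_dist {n : ℕ} {K : ℝ} (hK : 0 ≤ K) (i j : Fin n) :
    (dL n K hK).dist (inl i) (inr j) = distL K n (loc n i) j := rfl

theorem dR_dist {n : ℕ} {K : ℝ} (hK : 0 ≤ K) (i j : Fin n) :
    (dR n K hK).dist (inl i) (inr j) = distR K n (loc n i) j := rfl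

theorem opt_dL {n : ℕ} {K : ℝ} (hK : 1 ≤ K) (hn0 : 0 < n) (hn : K ^ 2 + K ≤ (n : ℝ) / 2) :
    opt (dL n K (by linarith)) ≤ 1 := by
  refine (opt_le (Equiv.refl _) _).trans (maxCost_le hn0 _ _ _ ?_)
  intro i
  rw [Equiv.refl_apply, dL_dist]
  unfold distL posL loc
  refine (min_le_right _ _).trans ?_
  split_ifs with h
  · have h1 : (2 : ℝ) * ((i : ℕ) + 1) ≤ n := by
      have : 2 * ((i : ℕ) + 1) ≤ n := by omega
      exact_mod_cast this
    push_cast
    rw [F_lin (by linarith) (show K ^ 2 ≤ (n : ℝ) - ((i : ℕ) + 1) by linarith),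
      F_lin (by linarith) (show K ^ 2 ≤ (n : ℝ) - (i : ℕ) by linarith)]
    rw [show (n : ℝ) - ((i : ℕ) + 1) + K ^ 2 - (n - (i : ℕ) + K ^ 2) = -1 by ring]
    simp
  · simp

theorem opt_dR {n : ℕ} {K : ℝ} (hK : 1 ≤ K) (hn0 : 0 < n) (hn : K ^ 2 + K ≤ (n : ℝ) / 2) :
    opt (dR n K (by linarith)) ≤ 1 := by
  obtain ⟨k, rfl⟩ : ∃ k, n = k + 1 := ⟨n - 1, by omega⟩
  refine (opt_le (finRotate (k + 1)) _).trans (maxCost_le hn0 _ _ _ ?_)
  intro i
  rw [dR_dist]
  unfold distR posR
  rw [coe_finRotate]
  refine (min_le_right _ _).trans ?_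
  have hi := i.2
  have hmid : ∀ x : ℕ, (k + 1) / 2 ≤ x → K ^ 2 ≤ (x : ℝ) := by
    intro x hx
    have h2 : (k + 1 : ℕ) ≤ 2 * x + 1 := by omega
    have h3 : ((k + 1 : ℕ) : ℝ) ≤ 2 * x + 1 := by exact_mod_cast h2
    linarith
  by_cases hlast : i = Fin.last k
  · rw [if_pos hlast, if_pos rfl]
    have hv : (i : ℕ) = k := by rw [hlast]; rfl
    have hloc : loc (k + 1) i = k := by
      unfold loc
      rw [hv]
      split_ifs with h
      · have : k = 0 := by omega
        subst this
        exfalso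
        norm_num at hn
        nlinarith
      · rfl
    rw [hloc, F_lin (by linarith) (hmid k (by omega)),
      F_lin (by linarith) (hmid (k + 1) (by omega))]
    push_cast
    rw [show (k : ℝ) + K ^ 2 - (k + 1 + K ^ 2) = -1 by ring]
    simp
  · rw [if_neg hlast, if_neg (by omega)]
    unfold loc
    split_ifs with h
    · simp
    · rw [F_lin (by linarith) (hmid i (by omega)),
        F_lin (by linarith) (hmid (i + 1) (by omega))]
      push_cast
      rw [show ((i : ℕ) : ℝ) + K ^ 2 - ((i : ℕ) + 1 + K ^ 2) = -1 by ring]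
      simp

/-- The lower bound for admissible parameters. -/
theorem lower {n : ℕ} {K : ℝ} (hK : 1 ≤ K) (hn0 : 0 < n) (hn : K ^ 2 + K ≤ (n : ℝ) / 2)
    (f : Mechanism) {α : ℝ} (h : DistortionAtMost f n α) : K ≤ α := by
  have hK0 : 0 ≤ K := by linarith
  obtain ⟨σ, hσ⟩ := exists_profile
    (u := fun i j : Fin n => distL K n (loc n i) j)
    (v := fun i j : Fin n => distR K n (loc n i) j)
    (fun a b b' hb => como hK hn (loc_le a.2) b.2 b'.2 hb)
  have hcL : Consistent σ (dL n K hK0) := fun a b b' hb => (hσ a b b' hb).1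
  have hcR : Consistent σ (dR n K hK0) := fun a b b' hb => (hσ a b b' hb).2
  have hL := h σ _ hcL
  have hR := h σ _ hcR
  -- the agent who receives the special item
  obtain ⟨a, ha⟩ := (f n σ).surjective ⟨0, hn0⟩
  have fin : ∀ d : PseudoMetricSpace (Fin n ⊕ Fin n), K ≤ d.dist (inl a) (inr (f n σ a)) →
      maxCost (f n σ) d ≤ α * opt d → opt d ≤ 1 → K ≤ α := by
    intro d h1 h2 h3
    have h4 := h1.trans (le_maxCost (f n σ) d a)
    have h5 := opt_nonneg hn0 d
    have h6 : 0 ≤ α := by
      by_contra hc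
      nlinarith [not_le.1 hc]
    nlinarith
  rcases far hK hn (loc_le a.2) with h1 | h1
  · refine fin (dL n K hK0) ?_ hL (opt_dL hK hn0 hn)
    rw [ha, dL_dist]
    exact h1
  · refine fin (dR n K hK0) ?_ hR (opt_dR hK hn0 hn)
    rw [ha, dR_dist]
    exact h1

/-- The discrete pseudometric, used only for `n ≤ 3`. -/
noncomputable def dOne (n : ℕ) : PseudoMetricSpace (Fin n ⊕ Fin n) :=
  truncMetric 1 zero_le_one (Sum.elim (fun _ => 0) (fun _ => 1))

theorem one_le {n : ℕ} (hn0 : 0 < n) (f : Mechanism) {α : ℝ} (h : DistortionAtMost f n α) :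
    1 ≤ α := by
  have hd : ∀ i j : Fin n, (dOne n).dist (inl i) (inr j) = 1 := by
    intro i j
    change min (1 : ℝ) |(0 : ℝ) - 1| = 1
    norm_num
  obtain ⟨σ, -⟩ := exists_profile (n := n) (fun _ _ => (0 : ℝ)) (fun _ _ => (0 : ℝ))
    (fun _ _ _ _ => le_rfl)
  have hc : Consistent σ (dOne n) := fun a b b' _ => by rw [hd, hd]
  have h1 := h σ _ hc
  have h2 : 1 ≤ maxCost (f n σ) (dOne n) := by
    have := le_maxCost (f n σ) (dOne n) ⟨0, hn0⟩
    rwa [hd] at this
  have h3 : opt (dOne n) ≤ 1 := by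
    refine (opt_le (Equiv.refl _) _).trans (maxCost_le hn0 _ _ _ ?_)
    intro i
    rw [hd]
  have h4 := opt_nonneg hn0 (dOne n)
  have h6 : 0 ≤ α := by
    by_contra hc
    nlinarith [not_le.1 hc]
  nlinarith

/-- **Every deterministic matching mechanism has max-distortion at least `√n / 2` on `n` agents.**
In particular no deterministic mechanism has bounded max-distortion. -/
theorem result (f : Mechanism) (n : ℕ) (hn : 1 ≤ n) (α : ℝ) (h : DistortionAtMost f n α) :
    √(n : ℝ) / 2 ≤ α := by
  have hs := Real.sq_sqrt (show (0 : ℝ) ≤ n from Nat.cast_nonneg n)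
  rcases le_or_gt 2 √(n : ℝ) with h2 | h2
  · refine lower (K := √(n : ℝ) / 2) (by linarith) (by omega) ?_ f h
    nlinarith
  · have := one_le (by omega) f h
    linarith

end Pool.Agent.Results.MP_b944bf_lc.SqrtLowerBound
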